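import Mathlib

/-!
# Monads of ultrafilters need not be convex for nonstandard divisibility

A nonstandard extension of `ℕ` is given by an elementary embedding of `ℕ` into `M` for the full
language of `ℕ` (a symbol for each relation and each function of finite arity). If `G` is a
nonprincipal ultrafilter and `F` is its image under `n ↦ 4 ^ n`, take `(H, K)` in the monad of
`G ⊗ G`. Then `4 ^ H` divides `2 * 4 ^ H` divides `4 ^ K`, the outer two are in the monad of `F`
and the middle one is not, as it is not a power of four.
-/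

set_option autoImplicit false

universe u

namespace Pool.Agent.Results.MP_0a3202_lc.NotConvex

open FirstOrder FirstOrder.Language

/-- The full language of `ℕ`: a symbol for every function and every relation of finite arity. -/
def fullLang : Language where
  Functions n := (Fin n → ℕ) → ℕ
  Relations n := Set (Fin n → ℕ)

instance : fullLang.Structure ℕ where
  funMap {n} (f : (Fin n → ℕ) → ℕ) (x : Fin n → ℕ) := f x
  RelMap {n} (R : Set (Fin n → ℕ)) (x : Fin n → ℕ) := x ∈ R

section

variable {M : Type u} [fullLang.Structure M]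

/-- The relation symbol of a subset of `ℕ`. -/
def setSymb (A : Set ℕ) : fullLang.Relations 1 := {v : Fin 1 → ℕ | v 0 ∈ A}

/-- The relation symbol of divisibility. -/
def dvdSymb : fullLang.Relations 2 := {v : Fin 2 → ℕ | v 0 ∣ v 1}

variable (M) in
/-- The nonstandard extension `*A ⊆ M` of `A ⊆ ℕ`. -/
def star (A : Set ℕ) : Set M := {x | Structure.RelMap (setSymb A) ![x]}

/-- The nonstandard extension of divisibility. -/
def StarDvd (x y : M) : Prop := Structure.RelMap dvdSymb ![x, y]

variable (M) in
/-- The monad of the ultrafilter `F`: all `x` with `{A | x ∈ *A} = F`. -/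
def monad (F : Ultrafilter ℕ) : Set M := {x | ∀ A : Set ℕ, x ∈ star M A ↔ A ∈ F}

/-- `X` is convex: it contains `z` whenever `x *∣ z`, `z *∣ y` for some `x, y` in `X`. -/
def IsConvex (X : Set M) : Prop :=
  ∀ x ∈ X, ∀ y ∈ X, ∀ z : M, StarDvd x z → StarDvd z y → z ∈ X

/-- The function symbol of a function `ℕ → ℕ`. -/
def funSymb (f : ℕ → ℕ) : fullLang.Functions 1 := fun v => f (v 0)

/-- The nonstandard extension of a function. -/
def starFun (f : ℕ → ℕ) (x : M) : M := Structure.funMap (funSymb f) ![x]

end

variable {M : Type u} [fullLang.Structure M] (i : ℕ ↪ₑ[fullLang] M)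

include i

theorem transfer_preimage (f : ℕ → ℕ) (A : Set ℕ) (x : M) :
    starFun f x ∈ star M A ↔ x ∈ star M (f ⁻¹' A) := by
  have h := i.map_sentence
    (∀' (((setSymb (f ⁻¹' A)).boundedFormula₁ (&0)).iff
      ((setSymb A).boundedFormula₁ ((funSymb f).apply₁ (&0)))) : fullLang.Sentence)
  have h1 : ℕ ⊨ (∀' (((setSymb (f ⁻¹' A)).boundedFormula₁ (&0)).iff
      ((setSymb A).boundedFormula₁ ((funSymb f).apply₁ (&0)))) : fullLang.Sentence) := by
    simp only [Sentence.Realize, Formula.Realize, BoundedFormula.realize_all,
      BoundedFormula.realize_iff, BoundedFormula.realize_rel₁, Term.realize_functions_apply₁]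
    intro n
    rfl
  have h2 := h.1 h1
  simp only [Sentence.Realize, Formula.Realize, BoundedFormula.realize_all,
      BoundedFormula.realize_iff, BoundedFormula.realize_rel₁, Term.realize_functions_apply₁] at h2
  exact (h2 x).symm

theorem transfer_dvd (f g : ℕ → ℕ) (x : M) :
    StarDvd (starFun f x) (starFun g x) ↔ x ∈ star M {n | f n ∣ g n} := by
  have h := i.map_sentence
    (∀' (((setSymb {n | f n ∣ g n}).boundedFormula₁ (&0)).iff
      (dvdSymb.boundedFormula₂ ((funSymb f).apply₁ (&0)) ((funSymb g).apply₁ (&0)))) :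
      fullLang.Sentence)
  have h1 : ℕ ⊨ (∀' (((setSymb {n | f n ∣ g n}).boundedFormula₁ (&0)).iff
      (dvdSymb.boundedFormula₂ ((funSymb f).apply₁ (&0)) ((funSymb g).apply₁ (&0)))) :
      fullLang.Sentence) := by
    simp only [Sentence.Realize, Formula.Realize, BoundedFormula.realize_all,
      BoundedFormula.realize_iff, BoundedFormula.realize_rel₁, BoundedFormula.realize_rel₂,
      Term.realize_functions_apply₁]
    intro n
    rfl
  have h2 := h.1 h1
  simp only [Sentence.Realize, Formula.Realize, BoundedFormula.realize_all,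
      BoundedFormula.realize_iff, BoundedFormula.realize_rel₁, BoundedFormula.realize_rel₂,
      Term.realize_functions_apply₁] at h2
  exact (h2 x).symm

theorem star_univ (x : M) : x ∈ star M (Set.univ : Set ℕ) := by
  have h := i.map_sentence
    (∀' ((setSymb Set.univ).boundedFormula₁ (&0)) : fullLang.Sentence)
  have h1 : ℕ ⊨ (∀' ((setSymb Set.univ).boundedFormula₁ (&0)) : fullLang.Sentence) := by
    simp only [Sentence.Realize, Formula.Realize, BoundedFormula.realize_all,
      BoundedFormula.realize_rel₁]
    intro n
    exact Set.mem_univ n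
  have h2 := h.1 h1
  simp only [Sentence.Realize, Formula.Realize, BoundedFormula.realize_all,
      BoundedFormula.realize_rel₁] at h2
  exact h2 x

theorem star_empty (x : M) : x ∉ star M (∅ : Set ℕ) := by
  have h := i.map_sentence
    (∀' ((setSymb ∅).boundedFormula₁ (&0)).not : fullLang.Sentence)
  have h1 : ℕ ⊨ (∀' ((setSymb ∅).boundedFormula₁ (&0)).not : fullLang.Sentence) := by
    simp only [Sentence.Realize, Formula.Realize, BoundedFormula.realize_all,
      BoundedFormula.realize_not, BoundedFormula.realize_rel₁]
    intro n hn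
    exact hn
  have h2 := h.1 h1
  simp only [Sentence.Realize, Formula.Realize, BoundedFormula.realize_all,
      BoundedFormula.realize_not, BoundedFormula.realize_rel₁] at h2
  exact h2 x

/-- The main construction: for every nonprincipal `G`, if the monads are nonempty, then the monad
of the image of `G` under `n ↦ 4 ^ n` is not convex. -/
theorem not_convex (hmon : ∀ F : Ultrafilter ℕ, (monad M F).Nonempty) (G : Ultrafilter ℕ)
    (hG : ∀ n : ℕ, ({n} : Set ℕ) ∉ G) : ¬ IsConvex (monad M (G.map (fun n => 4 ^ n))) := by
  -- the product ultrafilter, coded on `ℕ`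
  set T : Ultrafilter ℕ := G.bind (fun a => G.map (fun b => Nat.pair a b)) with hT
  have hTmem : ∀ S : Set ℕ, S ∈ T ↔ ∀ᶠ a in (G : Filter ℕ), ∀ᶠ b in (G : Filter ℕ),
      Nat.pair a b ∈ S := by
    intro S
    rfl
  obtain ⟨p, hp⟩ := hmon T
  have hlt : ∀ a : ℕ, ∀ᶠ b in (G : Filter ℕ), a < b := by
    intro a
    have hle : (G : Filter ℕ) ≤ Filter.cofinite := by
      rcases G.le_cofinite_or_eq_pure with h | ⟨n, rfl⟩
      · exact h
      · exact absurd (Ultrafilter.mem_pure.2 rfl) (hG n)
    apply hle
    rw [Nat.cofinite_eq_atTop]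
    exact Filter.eventually_gt_atTop a
  set f : ℕ → ℕ := fun n => 4 ^ (Nat.unpair n).1 with hf
  set g : ℕ → ℕ := fun n => 2 * 4 ^ (Nat.unpair n).1 with hg
  set h : ℕ → ℕ := fun n => 4 ^ (Nat.unpair n).2 with hh
  have hx : starFun f p ∈ monad M (G.map (fun n => 4 ^ n)) := by
    intro A
    rw [transfer_preimage i, hp, hTmem, Ultrafilter.mem_map]
    simp only [hf, Set.mem_preimage, Nat.unpair_pair]
    rw [← Ultrafilter.mem_coe]
    constructor
    · intro h1
      filter_upwards [h1] with a ha
      exact ha.exists.choose_spec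
    · intro h1
      filter_upwards [h1] with a ha
      exact Filter.Eventually.of_forall fun _ => ha
  have hy : starFun h p ∈ monad M (G.map (fun n => 4 ^ n)) := by
    intro A
    rw [transfer_preimage i, hp, hTmem, Ultrafilter.mem_map]
    simp only [hh, Set.mem_preimage, Nat.unpair_pair]
    rw [← Ultrafilter.mem_coe]
    constructor
    · intro h1
      exact h1.exists.choose_spec
    · intro h1
      exact Filter.Eventually.of_forall fun _ => h1
  intro hconv
  have hz := hconv _ hx _ hy (starFun g p) ?_ ?_
  · -- `2 * 4 ^ H` is not a power of four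
    have h1 := (hz (Set.range fun n => 4 ^ n)).2 ?_
    · rw [transfer_preimage i] at h1
      have h2 : g ⁻¹' (Set.range fun n => 4 ^ n) = ∅ := by
        ext n
        simp only [hg, Set.mem_preimage, Set.mem_range, Set.mem_empty_iff_false, iff_false,
          not_exists]
        intro m hm
        have h3 : (4 : ℕ) = 2 ^ 2 := rfl
        rw [h3, ← pow_mul, ← pow_mul, ← pow_succ'] at hm
        have := Nat.pow_right_injective le_rfl hm
        omega
      rw [h2] at h1
      exact star_empty i _ h1
    · rw [Ultrafilter.mem_map]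
      have h5 : (fun n : ℕ => 4 ^ n) ⁻¹' (Set.range fun n : ℕ => 4 ^ n) = Set.univ := by
        ext n
        simp
      rw [h5]
      exact Filter.univ_mem
  · rw [transfer_dvd i]
    have h1 : {n | f n ∣ g n} = Set.univ := by
      ext n
      simp [hf, hg]
    rw [h1]
    exact star_univ i p
  · rw [transfer_dvd i, hp, hTmem]
    refine Filter.Eventually.of_forall fun a => ?_
    filter_upwards [hlt a] with b hab
    simp only [hg, hh, Nat.unpair_pair]
    obtain ⟨c, rfl⟩ := Nat.exists_eq_add_of_lt hab
    exact ⟨2 * 4 ^ c, by ring⟩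

omit i in
/-- Let `M` be a nonstandard extension of `ℕ` (an elementary extension for the full language of
`ℕ`) in which all monads are nonempty. Then for every nonprincipal ultrafilter `G` the monad of
the image of `G` under `n ↦ 4 ^ n` is not convex; such `G` exist. -/
theorem result : (∃ G : Ultrafilter ℕ, ∀ n : ℕ, ({n} : Set ℕ) ∉ G) ∧
    ∀ (M : Type u) [fullLang.Structure M] (_ : ℕ ↪ₑ[fullLang] M),
      (∀ F : Ultrafilter ℕ, (monad M F).Nonempty) →
      ∀ G : Ultrafilter ℕ, (∀ n : ℕ, ({n} : Set ℕ) ∉ G) →
        ¬ IsConvex (monad M (G.map (fun n => 4 ^ n))) :=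
  ⟨⟨Filter.hyperfilter ℕ, fun n => (Set.finite_singleton n).notMem_hyperfilter⟩,
    fun _ _ i hmon G hG => not_convex i hmon G hG⟩

end Pool.Agent.Results.MP_0a3202_lc.NotConvex
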